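import Pool.Agent.SunP.Engine

/-!
The two families of translates and the restriction to `n ≥ √N`.
-/

set_option autoImplicit false
open Finset Filter

namespace Pool.Agent.SunP

theorem pc_eq (N : ℕ) : Nat.primeCounting N = ((range (N + 1)).filter Nat.Prime).card := by
  rw [Nat.primeCounting, Nat.primeCounting', Nat.count_eq_card_filter_range]

/-- `n ≤ N` with `n + x` prime -/
def AP (N x : ℕ) : Finset ℕ := (Icc 1 N).filter (fun n => (n + x).Prime)

/-- `n ≤ N` with `n - x` prime -/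
def AM (N x : ℕ) : Finset ℕ := (Icc 1 N).filter (fun n => x < n ∧ (n - x).Prime)

theorem ap1 (N x : ℕ) : Nat.primeCounting N ≤ x + (AP N x).card := by
  rw [pc_eq]
  have h : (range (N + 1)).filter Nat.Prime ⊆ Icc 1 x ∪ (AP N x).image (· + x) := by
    intro q hq
    rw [mem_filter, mem_range] at hq
    rw [mem_union]
    by_cases hqx : q ≤ x
    · left
      exact mem_Icc.2 ⟨hq.2.one_lt.le, hqx⟩
    · right
      rw [mem_image]
      refine ⟨q - x, ?_, by omega⟩
      rw [AP, mem_filter, mem_Icc]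
      refine ⟨⟨by omega, by omega⟩, ?_⟩
      rw [show q - x + x = q by omega]
      exact hq.2
  calc _ ≤ (Icc 1 x ∪ (AP N x).image (· + x)).card := card_le_card h
    _ ≤ (Icc 1 x).card + ((AP N x).image (· + x)).card := card_union_le _ _
    _ ≤ x + (AP N x).card := by
        apply Nat.add_le_add
        · simp
        · exact card_image_le

theorem ap2 (N x : ℕ) (hx : x ≤ N) : (AP N x).card ≤ Nat.primeCounting (4 * N) := by
  rw [pc_eq]
  apply card_le_card_of_injOn (· + x)
  · intro n hn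
    rw [mem_coe, AP, mem_filter, mem_Icc] at hn
    rw [mem_coe, mem_filter, mem_range]
    exact ⟨by simp only; omega, hn.2⟩
  · intro a _ b _ h
    simpa using h

theorem ap3 (N x x' : ℕ) (h : x < x') : ∃ M, (AP N x ∩ AP N x').card ≤
      ((Ioc M (M + N)).filter (fun n => n.Prime ∧ (n + (x' - x)).Prime)).card := by
  refine ⟨x, ?_⟩
  apply card_le_card_of_injOn (· + x)
  · intro n hn
    rw [mem_coe, mem_inter, AP, AP, mem_filter, mem_filter, mem_Icc] at hn
    rw [mem_coe, mem_filter, mem_Ioc]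
    refine ⟨⟨by simp only; omega, by simp only; omega⟩, hn.1.2, ?_⟩
    simp only
    rw [show n + x + (x' - x) = n + x' by omega]
    exact hn.2.2
  · intro a _ b _ h
    simpa using h

theorem am1 (N x : ℕ) : Nat.primeCounting N ≤ x + (AM N x).card := by
  rw [pc_eq]
  have h : (range (N + 1)).filter Nat.Prime ⊆ Ioc (N - x) N ∪ (AM N x).image (· - x) := by
    intro q hq
    rw [mem_filter, mem_range] at hq
    rw [mem_union]
    by_cases hqx : q ≤ N - x
    · right
      rw [mem_image]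
      refine ⟨q + x, ?_, by omega⟩
      rw [AM, mem_filter, mem_Icc]
      have := hq.2.pos
      refine ⟨⟨by omega, by omega⟩, by omega, ?_⟩
      rw [show q + x - x = q by omega]
      exact hq.2
    · left
      exact mem_Ioc.2 ⟨by omega, by omega⟩
  calc _ ≤ (Ioc (N - x) N ∪ (AM N x).image (· - x)).card := card_le_card h
    _ ≤ (Ioc (N - x) N).card + ((AM N x).image (· - x)).card := card_union_le _ _
    _ ≤ x + (AM N x).card := by
        apply Nat.add_le_add
        · simp only [Nat.card_Ioc]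
          omega
        · exact card_image_le

theorem am2 (N x : ℕ) : (AM N x).card ≤ Nat.primeCounting (4 * N) := by
  rw [pc_eq]
  apply card_le_card_of_injOn (· - x)
  · intro n hn
    rw [mem_coe, AM, mem_filter, mem_Icc] at hn
    rw [mem_coe, mem_filter, mem_range]
    exact ⟨by simp only; omega, hn.2.2⟩
  · intro a ha b hb h
    rw [mem_coe, AM, mem_filter] at ha hb
    simp only at h
    omega

theorem am3 (N x x' : ℕ) (h : x < x') : ∃ M, (AM N x ∩ AM N x').card ≤
      ((Ioc M (M + N)).filter (fun n => n.Prime ∧ (n + (x' - x)).Prime)).card := by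
  refine ⟨0, ?_⟩
  apply card_le_card_of_injOn (· - x')
  · intro n hn
    rw [mem_coe, mem_inter, AM, AM, mem_filter, mem_filter, mem_Icc] at hn
    rw [mem_coe, mem_filter, mem_Ioc]
    obtain ⟨⟨h1, h2, h3⟩, h4, h5, h6⟩ := hn
    refine ⟨⟨by simp only; omega, by simp only; omega⟩, h6, ?_⟩
    simp only
    rw [show n - x' + (x' - x) = n - x by omega]
    exact h3
  · intro a ha b hb h
    rw [mem_coe, mem_inter, AM, AM, mem_filter, mem_filter] at ha hb
    simp only at h
    omega

/-- removing the `n < √N` -/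
theorem trim {c : ℝ} (hc : 0 < c) : ∀ᶠ N : ℕ in atTop, ∀ S : Finset ℕ, S ⊆ Icc 1 N →
    c * N / Real.log (Real.log (Real.log N)) ≤ (S.card : ℝ) →
    c / 2 * N / Real.log (Real.log (Real.log N)) ≤ ((S.filter (fun n => N ≤ n ^ 2)).card : ℝ) := by
  filter_upwards [ev_basic, ev_pow (4 / c ^ 2) 2] with N hN hp S hS hcard
  obtain ⟨hT, h20, hL, hLL⟩ := hN
  obtain ⟨T, hTdef⟩ : ∃ T : ℝ, T = Real.log (Real.log (Real.log N)) := ⟨_, rfl⟩
  rw [← hTdef] at hT hcard ⊢
  have hTL : T ≤ Real.log N := by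
    rw [hTdef]
    exact (Real.log_le_self (by linarith)).trans (Real.log_le_self (by linarith))
  have hT0 : 0 < T := by linarith
  have hsplit : (S.filter (fun n => N ≤ n ^ 2)).card + (S.filter (fun n => ¬ N ≤ n ^ 2)).card =
      S.card := Finset.card_filter_add_card_filter_not _
  have hsmall : (S.filter (fun n => ¬ N ≤ n ^ 2)).card ≤ Nat.sqrt N := by
    have : S.filter (fun n => ¬ N ≤ n ^ 2) ⊆ Icc 1 (Nat.sqrt N) := by
      intro n hn
      rw [mem_filter] at hn
      have h1 := mem_Icc.1 (hS hn.1)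
      refine mem_Icc.2 ⟨h1.1, ?_⟩
      rw [Nat.le_sqrt]
      nlinarith [hn.2]
    simpa using card_le_card this
  obtain ⟨r, hr⟩ : ∃ r : ℝ, r = Real.sqrt N := ⟨_, rfl⟩
  have hr2 : r ^ 2 = N := by rw [hr]; exact Real.sq_sqrt (Nat.cast_nonneg N)
  have hr0 : 0 ≤ r := by rw [hr]; exact Real.sqrt_nonneg _
  have hsq : (Nat.sqrt N : ℝ) ≤ r := by rw [hr]; exact Real.nat_sqrt_le_real_sqrt
  have h1 : 2 / c * Real.log N ≤ r := by
    have hLn : 0 ≤ Real.log N := by linarith
    refine (sq_le_sq₀ (by positivity) hr0).1 ?_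
    rw [hr2, mul_pow, div_pow]
    norm_num
    exact hp
  have h2 : 2 * T ≤ c * r := by
    have : 2 / c * Real.log N * c ≤ r * c := mul_le_mul_of_nonneg_right h1 hc.le
    have e : 2 / c * Real.log N * c = 2 * Real.log N := by field_simp
    rw [e] at this
    linarith
  have h3 : r ≤ c / 2 * N / T := by
    rw [le_div_iff₀ hT0, ← hr2]
    nlinarith
  have h4 : c * N / T = c / 2 * N / T + c / 2 * N / T := by ring
  have h5 : ((S.filter (fun n => N ≤ n ^ 2)).card : ℝ) +
      ((S.filter (fun n => ¬ N ≤ n ^ 2)).card : ℝ) = S.card := by exact_mod_cast hsplit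
  have h6 : ((S.filter (fun n => ¬ N ≤ n ^ 2)).card : ℝ) ≤ Nat.sqrt N := by exact_mod_cast hsmall
  linarith

theorem half_log {N n : ℕ} (hN : 1 ≤ N) (h : N ≤ n ^ 2) : Real.log N ≤ 2 * Real.log n := by
  have h1 : Real.log N ≤ Real.log ((n : ℝ) ^ 2) := by
    apply Real.log_le_log
    · exact_mod_cast (show 0 < N by omega)
    · exact_mod_cast h
  rw [Real.log_pow] at h1
  simpa using h1

/-- lower bound for the `n` with `n + x` prime for some `x ∈ X` -/
theorem plus_lower : ∃ c : ℝ, 0 < c ∧ ∀ᶠ N : ℕ in atTop, ∀ X : Finset ℕ,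
    (∀ x ∈ X, (x : ℝ) ≤ Real.log N ^ 4) → Real.log N ≤ X.card →
    c * N / Real.log (Real.log (Real.log N)) ≤
      (((X.biUnion (AP N)).filter (fun n => N ≤ n ^ 2)).card : ℝ) := by
  obtain ⟨c, hc, h⟩ := engine
  refine ⟨c / 2, by positivity, ?_⟩
  filter_upwards [h, trim hc] with N h1 h2 X hX hc1
  apply h2 _ _ (h1 (AP N) (ap1 N) (ap2 N) (ap3 N) X hX hc1)
  intro n hn
  rw [mem_biUnion] at hn
  obtain ⟨x, _, hx⟩ := hn
  exact (mem_filter.1 hx).1

/-- lower bound for the `n` with `n - x` prime for some `x ∈ X` -/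
theorem minus_lower : ∃ c : ℝ, 0 < c ∧ ∀ᶠ N : ℕ in atTop, ∀ X : Finset ℕ,
    (∀ x ∈ X, (x : ℝ) ≤ Real.log N ^ 4) → Real.log N ≤ X.card →
    c * N / Real.log (Real.log (Real.log N)) ≤
      (((X.biUnion (AM N)).filter (fun n => N ≤ n ^ 2)).card : ℝ) := by
  obtain ⟨c, hc, h⟩ := engine
  refine ⟨c / 2, by positivity, ?_⟩
  filter_upwards [h, trim hc] with N h1 h2 X hX hc1
  apply h2 _ _ (h1 (AM N) (am1 N) (fun x _ => am2 N x) (am3 N) X hX hc1)
  intro n hn
  rw [mem_biUnion] at hn
  obtain ⟨x, _, hx⟩ := hn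
  exact (mem_filter.1 hx).1

end Pool.Agent.SunP
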