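import Pool.Agent.SunP.Ratio
import Pool.Agent.PrimeCircle.Upper
import Pool.Agent.Helper20.TwinIndex

/-!
A lower bound for the union of translates of the primes by a set of at least `log N` shifts
of size at most `(log N)^4`.
-/

set_option autoImplicit false
open Finset Filter

namespace Pool.Agent.SunP

theorem tendsto_loglog : Tendsto (fun N : ℕ => Real.log (Real.log N)) atTop atTop :=
  Real.tendsto_log_atTop.comp (Real.tendsto_log_atTop.comp tendsto_natCast_atTop_atTop)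

theorem tendsto_log : Tendsto (fun N : ℕ => Real.log N) atTop atTop :=
  Real.tendsto_log_atTop.comp tendsto_natCast_atTop_atTop

theorem tendsto_logloglog : Tendsto (fun N : ℕ => Real.log (Real.log (Real.log N))) atTop atTop :=
  Real.tendsto_log_atTop.comp tendsto_loglog

theorem ev_pow (C : ℝ) (k : ℕ) : ∀ᶠ N : ℕ in atTop, C * Real.log N ^ k ≤ N := by
  have h9 := (Real.isLittleO_pow_log_id_atTop (n := k)).def (c := 1 / (|C| + 1)) (by positivity)
  have h10 := tendsto_natCast_atTop_atTop (R := ℝ) |>.eventually h9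
  filter_upwards [h10, tendsto_log.eventually_ge_atTop 1] with N hN hL
  have hL0 : (0 : ℝ) ≤ Real.log N ^ k := by positivity
  simp only [Real.norm_eq_abs, id] at hN
  rw [abs_of_nonneg hL0, abs_of_nonneg (Nat.cast_nonneg N : (0 : ℝ) ≤ (N : ℝ))] at hN
  have hC : 0 < |C| + 1 := by positivity
  rw [div_mul_eq_mul_div, one_mul, le_div_iff₀ hC] at hN
  have := le_abs_self C
  nlinarith

theorem ev_basic : ∀ᶠ N : ℕ in atTop,
    1 ≤ Real.log (Real.log (Real.log N)) ∧ 20 * Real.log N ^ 5 ≤ N ∧ 1 ≤ Real.log N ∧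
      5 ≤ Real.log (Real.log N) := by
  filter_upwards [tendsto_logloglog.eventually_ge_atTop 1, ev_pow 20 5,
    tendsto_log.eventually_ge_atTop 1, tendsto_loglog.eventually_ge_atTop 5] with N h1 h2 h3 h4
  exact ⟨h1, h2, h3, h4⟩

theorem ceil_log {t : ℝ} (ht : 5 ≤ t) : Real.log (⌈4 * t⌉₊ : ℝ) ≤ 2 * Real.log t := by
  have h1 : (⌈4 * t⌉₊ : ℝ) < 4 * t + 1 := Nat.ceil_lt_add_one (by linarith)
  have h2 : (⌈4 * t⌉₊ : ℝ) ≤ t ^ 2 := by nlinarith
  have h3 : (0 : ℝ) < (⌈4 * t⌉₊ : ℝ) := lt_of_lt_of_le (by linarith) (Nat.le_ceil _)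
  calc Real.log (⌈4 * t⌉₊ : ℝ) ≤ Real.log (t ^ 2) := Real.log_le_log h3 h2
    _ = 2 * Real.log t := by rw [Real.log_pow]; norm_num

theorem engine : ∃ c : ℝ, 0 < c ∧ ∀ᶠ N : ℕ in atTop, ∀ A : ℕ → Finset ℕ,
    (∀ x, Nat.primeCounting N ≤ x + (A x).card) →
    (∀ x ≤ N, (A x).card ≤ Nat.primeCounting (4 * N)) →
    (∀ x x', x < x' → ∃ M, (A x ∩ A x').card ≤
      ((Ioc M (M + N)).filter (fun n => n.Prime ∧ (n + (x' - x)).Prime)).card) →
    ∀ X : Finset ℕ, (∀ x ∈ X, (x : ℝ) ≤ Real.log N ^ 4) → Real.log N ≤ X.card →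
    c * N / Real.log (Real.log (Real.log N)) ≤ (X.biUnion A).card := by
  obtain ⟨C1, hC1, hup⟩ := Pool.Agent.PrimeCircle.primeCounting_le
  obtain ⟨C2, hC2, hps⟩ := Pool.Agent.PC.pair_sieve
  obtain ⟨c0, hc0, hrho⟩ := Pool.Agent.GBQ.thm_RhoLow
  obtain ⟨D, hD⟩ : ∃ D : ℝ, D = C2 * (Real.exp 4 * (2 / c0)) := ⟨_, rfl⟩
  have hDpos : 0 < D := by rw [hD]; positivity
  refine ⟨1 / (400 * (2 * C1 + 4 * D)), by positivity, ?_⟩
  filter_upwards [ev_basic, eventually_ge_atTop 2] with N hN hN2 A h1 h2 h3 X hX hXc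
  obtain ⟨hT, h20, hL, hLL⟩ := hN
  obtain ⟨T, hTdef⟩ : ∃ T : ℝ, T = Real.log (Real.log (Real.log N)) := ⟨_, rfl⟩
  obtain ⟨L, hLdef⟩ : ∃ L : ℝ, L = Real.log N := ⟨_, rfl⟩
  rw [← hTdef] at hT ⊢
  have hNpos : (0 : ℝ) < N := by exact_mod_cast (show 0 < N by omega)
  obtain ⟨X', hX'sub, hX'card⟩ := Finset.exists_subset_card_eq (Nat.ceil_le.2 hXc)
  have hs1 : L ≤ X'.card := by rw [hX'card, hLdef]; exact Nat.le_ceil _
  have hs2 : (X'.card : ℝ) ≤ 2 * L := by
    rw [hX'card, hLdef]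
    have := Nat.ceil_lt_add_one (by linarith : 0 ≤ Real.log N)
    linarith
  have hmono : ((X'.biUnion A).card : ℝ) ≤ (X.biUnion A).card := by
    exact_mod_cast Finset.card_le_card (Finset.biUnion_subset_biUnion_of_subset_left A hX'sub)
  refine le_trans ?_ hmono
  have hL1 : 1 ≤ L := by rw [hLdef]; exact hL
  have hLpos : 0 < L := by linarith
  -- lower bound for each set
  have ha : ∀ x ∈ X', (N : ℝ) / (20 * L) ≤ (A x).card := by
    intro x hx
    have hx4 : (x : ℝ) ≤ L ^ 4 := by rw [hLdef]; exact hX x (hX'sub hx)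
    have hch := Pool.Agent.Helper20.TwinIndex.cheb hN2
    rw [← hLdef] at hch
    have h1x : (Nat.primeCounting N : ℝ) ≤ x + (A x).card := by exact_mod_cast h1 x
    have h20' : 20 * L ^ 5 ≤ N := by rw [hLdef]; exact h20
    rw [div_le_iff₀ (by positivity)]
    nlinarith [mul_pos hLpos hLpos, mul_le_mul_of_nonneg_left h1x hLpos.le,
      mul_le_mul_of_nonneg_left hx4 hLpos.le]
  have hb : ∀ x ∈ X', ((A x).card : ℝ) ≤ C1 * N / L := by
    intro x hx
    have hx4 : (x : ℝ) ≤ L ^ 4 := by rw [hLdef]; exact hX x (hX'sub hx)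
    have h20' : 20 * L ^ 5 ≤ N := by rw [hLdef]; exact h20
    have hxN : x ≤ N := by
      have : (x : ℝ) ≤ N := by
        have h4 : L ^ 4 ≤ L ^ 5 := pow_le_pow_right₀ hL1 (by norm_num)
        have h5 : (0 : ℝ) ≤ L ^ 5 := by positivity
        linarith
      exact_mod_cast this
    have := hup N hN2
    rw [← hLdef] at this
    refine le_trans ?_ this
    exact_mod_cast h2 x hxN
  have hd : ∀ x ∈ X', ∀ x' ∈ X', x < x' → ((A x ∩ A x').card : ℝ) ≤ D * T * N / L ^ 2 := by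
    intro x _ x' hx' hlt
    obtain ⟨M, hM⟩ := h3 x x' hlt
    have hMr : ((A x ∩ A x').card : ℝ) ≤
      ((Ioc M (M + N)).filter (fun n => n.Prime ∧ (n + (x' - x)).Prime)).card := by
      exact_mod_cast hM
    refine hMr.trans ((hps M N (x' - x) hN2 (by omega)).trans ?_)
    rw [← hLdef]
    obtain ⟨y, hy⟩ : ∃ y : ℕ, y = ⌈4 * Real.log (Real.log N)⌉₊ := ⟨_, rfl⟩
    have hyr : 4 * Real.log (Real.log N) ≤ y := by rw [hy]; exact Nat.le_ceil _
    have hy2 : 2 ≤ y := by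
      have : (2 : ℝ) ≤ y := by linarith
      exact_mod_cast this
    have hxy : x' - x ≤ 4 ^ y := by
      have hx4 : (x' : ℝ) ≤ L ^ 4 := by rw [hLdef]; exact hX x' (hX'sub hx')
      have e1 : L ^ 4 ≤ Real.exp y := by
        have : L ^ 4 = Real.exp (4 * Real.log L) := by
          have e := Real.exp_nat_mul (Real.log L) 4
          rw [Real.exp_log hLpos] at e
          rw [← e]
          norm_num
        rw [this]
        apply Real.exp_le_exp.2
        rw [hLdef]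
        exact hyr
      have e2 : Real.exp y ≤ (4 : ℝ) ^ y := by
        rw [← Real.exp_one_pow]
        apply pow_le_pow_left₀ (Real.exp_pos 1).le
        have := Real.exp_one_lt_d9
        linarith
      have e3 : (x' : ℝ) ≤ ((4 ^ y : ℕ) : ℝ) := by push_cast; linarith
      have e4 : x' ≤ 4 ^ y := by exact_mod_cast e3
      omega
    have hr := ratio_le (x' - x) y (by omega) hy2 hxy
    have hrh := hrho y hy2
    have hlogy : Real.log (y : ℝ) ≤ 2 * T := by
      rw [hy, hTdef]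
      exact ceil_log hLL
    have hy2r : (2 : ℝ) ≤ y := by exact_mod_cast hy2
    have hlogy0 : 0 < Real.log (y : ℝ) := Real.log_pos (by linarith)
    have hinv : (Pool.Agent.GBQ.rho y)⁻¹ ≤ 2 / c0 * T := by
      calc (Pool.Agent.GBQ.rho y)⁻¹ ≤ (c0 / Real.log y)⁻¹ := by
            apply inv_anti₀ (by positivity) hrh
        _ = Real.log y / c0 := by rw [inv_div]
        _ ≤ 2 * T / c0 := by gcongr
        _ = _ := by ring
    have hratio : ((x' - x : ℕ) : ℝ) / Nat.totient (x' - x) ≤ Real.exp 4 * (2 / c0 * T) :=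
      hr.trans (mul_le_mul_of_nonneg_left hinv (Real.exp_pos 4).le)
    have : C2 * (((x' - x : ℕ) : ℝ) / Nat.totient (x' - x)) * N ≤ D * T * N := by
      rw [hD]
      apply mul_le_mul_of_nonneg_right _ hNpos.le
      calc C2 * (((x' - x : ℕ) : ℝ) / Nat.totient (x' - x)) ≤ C2 * (Real.exp 4 * (2 / c0 * T)) :=
            mul_le_mul_of_nonneg_left hratio hC2.le
        _ = _ := by ring
    exact div_le_div_of_nonneg_right this (by positivity)
  have hsm := second_moment X' A (N / (20 * L)) (C1 * N / L) (D * T * N / L ^ 2) (by positivity)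
    ha hb hd (by positivity)
  obtain ⟨U, hU⟩ : ∃ U : ℝ, U = (X'.biUnion A).card := ⟨_, rfl⟩
  obtain ⟨s, hs⟩ : ∃ s : ℝ, s = X'.card := ⟨_, rfl⟩
  rw [← hs] at hs1 hs2 hsm
  rw [← hU] at hsm ⊢
  have hU0 : 0 ≤ U := by rw [hU]; exact Nat.cast_nonneg _
  have hs0 : 0 < s := by linarith
  have k1 : (N : ℝ) / 20 ≤ s * (N / (20 * L)) := by
    rw [← mul_div_assoc, le_div_iff₀ (by positivity)]
    nlinarith
  have k2 : ((N : ℝ) / 20) ^ 2 ≤ (s * (N / (20 * L))) ^ 2 :=
    pow_le_pow_left₀ (by positivity) k1 2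
  have k3 : s * (C1 * N / L) ≤ 2 * C1 * N := by
    rw [← mul_div_assoc, div_le_iff₀ hLpos]
    nlinarith [mul_pos hC1 hNpos]
  have k4 : s ^ 2 * (D * T * N / L ^ 2) ≤ 4 * D * T * N := by
    rw [← mul_div_assoc, div_le_iff₀ (by positivity)]
    have : s ^ 2 ≤ (2 * L) ^ 2 := pow_le_pow_left₀ hs0.le hs2 2
    have k5 : 0 ≤ D * T * N := by positivity
    nlinarith [mul_le_mul_of_nonneg_right this k5]
  have k6 : ((N : ℝ) / 20) ^ 2 ≤ U * (2 * C1 * N + 4 * D * T * N) := by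
    refine k2.trans (hsm.trans ?_)
    apply mul_le_mul_of_nonneg_left _ hU0
    linarith
  have k7 : 2 * C1 * N + 4 * D * T * N ≤ (2 * C1 + 4 * D) * T * N := by
    have : 2 * C1 * N ≤ 2 * C1 * N * T := by
      have : 0 ≤ 2 * C1 * N := by positivity
      nlinarith
    nlinarith
  have k8 : ((N : ℝ) / 20) ^ 2 ≤ U * ((2 * C1 + 4 * D) * T * N) :=
    k6.trans (mul_le_mul_of_nonneg_left k7 hU0)
  have k9 : (N : ℝ) ≤ U * (400 * (2 * C1 + 4 * D) * T) := by
    have : (N : ℝ) * N ≤ (U * (400 * (2 * C1 + 4 * D) * T)) * N := by nlinarith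
    exact le_of_mul_le_mul_right this hNpos
  have hTpos : 0 < T := by linarith
  rw [div_le_iff₀ hTpos, one_div, inv_mul_le_iff₀ (by positivity)]
  nlinarith

end Pool.Agent.SunP
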