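import Mathlib
import Pool.Agent.PC.Sieve
import Pool.Agent.GBQ.RhoLow

/-!
`h / φ(h)` for small `h`, and the second moment inequality.
-/

set_option autoImplicit false
open Finset

namespace Pool.Agent.SunP

open Pool.Agent.GBQ (rho)

/-- `h / φ(h) ≤ e^4 ∏_{p ≤ y} (1 - 1/p)^{-1}` for `h ≤ 4^y` -/
theorem ratio_le (h y : ℕ) (hh : 0 < h) (hy : 2 ≤ y) (hhy : h ≤ 4 ^ y) :
    (h : ℝ) / Nat.totient h ≤ Real.exp 4 * (rho y)⁻¹ := by
  rw [Pool.Agent.PC.BlockB.ratio_eq hh]
  have hfac : ∀ p ∈ h.primeFactors, (1 : ℝ) ≤ (1 - 1 / (p : ℝ))⁻¹ := by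
    intro p hp
    have hp' := Nat.prime_of_mem_primeFactors hp
    have := Pool.Agent.PC.BlockB.one_sub_pos hp'
    have h2 : (0 : ℝ) < 1 / (p : ℝ) := by
      have : (0 : ℝ) < p := by exact_mod_cast hp'.pos
      positivity
    exact (one_le_inv₀ (by linarith)).2 (by linarith)
  rw [← Finset.prod_filter_mul_prod_filter_not h.primeFactors (fun p => p ≤ y)]
  have hfirst : ∏ p ∈ h.primeFactors.filter (fun p => p ≤ y), (1 - 1 / (p : ℝ))⁻¹
      ≤ (rho y)⁻¹ := by
    unfold Pool.Agent.GBQ.rho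
    rw [← Finset.prod_inv_distrib]
    apply Finset.prod_le_prod_of_subset_of_one_le
    · intro p hp
      rw [Finset.mem_filter] at hp
      exact Pool.Agent.GBQ.mem_pr.2 ⟨hp.2, Nat.prime_of_mem_primeFactors hp.1⟩
    · intro p hp
      rw [Finset.mem_filter] at hp
      linarith [hfac p hp.1]
    · intro p hp _
      have hp' := (Pool.Agent.GBQ.mem_pr.1 hp).2
      have := Pool.Agent.PC.BlockB.one_sub_pos hp'
      have h2 : (0 : ℝ) < 1 / (p : ℝ) := by
        have : (0 : ℝ) < p := by exact_mod_cast hp'.pos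
        positivity
      exact (one_le_inv₀ (by linarith)).2 (by linarith)
  have hy2 : (2 : ℝ) ≤ y := by exact_mod_cast hy
  have hsecond : ∏ p ∈ h.primeFactors.filter (fun p => ¬ p ≤ y), (1 - 1 / (p : ℝ))⁻¹
      ≤ Real.exp 4 := by
    have h1 : ∏ p ∈ h.primeFactors.filter (fun p => ¬ p ≤ y), (1 - 1 / (p : ℝ))⁻¹
        ≤ ∏ _p ∈ h.primeFactors.filter (fun p => ¬ p ≤ y), Real.exp (2 / y) := by
      apply Finset.prod_le_prod
      · intro p hp
        rw [Finset.mem_filter] at hp
        linarith [hfac p hp.1]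
      · intro p hp
        rw [Finset.mem_filter] at hp
        have hpy : (y : ℝ) < p := by exact_mod_cast (not_le.1 hp.2)
        have hp0 : (0 : ℝ) < p := by linarith
        have hsub : (0 : ℝ) < 1 - 1 / (p : ℝ) := by
          have := Pool.Agent.PC.BlockB.one_sub_pos (Nat.prime_of_mem_primeFactors hp.1)
          linarith
        have e1 : (1 - 1 / (p : ℝ))⁻¹ ≤ 1 + 2 / y := by
          rw [inv_le_iff_one_le_mul₀ hsub]
          have e2 : 1 / (p : ℝ) ≤ 1 / y := by
            apply one_div_le_one_div_of_le (by linarith) hpy.le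
          have e3 : 1 / (y : ℝ) ≤ 1 / 2 := one_div_le_one_div_of_le (by norm_num) hy2
          have e4 : 2 / (y : ℝ) = 2 * (1 / y) := by ring
          have e5 : 0 < 1 / (y : ℝ) := by positivity
          rw [e4]
          nlinarith
        refine e1.trans ?_
        have := Real.add_one_le_exp (2 / (y : ℝ))
        linarith
    refine h1.trans ?_
    rw [Finset.prod_const, ← Real.exp_nat_mul]
    apply Real.exp_le_exp.2
    have hcard : (h.primeFactors.filter (fun p => ¬ p ≤ y)).card ≤ 2 * y := by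
      refine (Finset.card_filter_le _ _).trans ?_
      have h3 : 2 ^ h.primeFactors.card ≤ h := by
        calc 2 ^ h.primeFactors.card = ∏ _p ∈ h.primeFactors, 2 := by rw [Finset.prod_const]
          _ ≤ ∏ p ∈ h.primeFactors, p := Finset.prod_le_prod' fun p hp =>
              (Nat.prime_of_mem_primeFactors hp).two_le
          _ ≤ h := Nat.le_of_dvd hh (Nat.prod_primeFactors_dvd h)
      have h4 : 2 ^ h.primeFactors.card ≤ 2 ^ (2 * y) := by
        rw [pow_mul]
        exact h3.trans hhy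
      exact (Nat.pow_le_pow_iff_right (by norm_num)).1 h4
    have hcard' : ((h.primeFactors.filter (fun p => ¬ p ≤ y)).card : ℝ) ≤ 2 * y := by
      exact_mod_cast hcard
    calc ((h.primeFactors.filter (fun p => ¬ p ≤ y)).card : ℝ) * (2 / y)
        ≤ (2 * y) * (2 / y) := mul_le_mul_of_nonneg_right hcard' (by positivity)
      _ = 4 := by
          field_simp
          norm_num
  calc _ ≤ (rho y)⁻¹ * Real.exp 4 := by
        apply mul_le_mul hfirst hsecond
        · exact Finset.prod_nonneg fun p hp => by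
            rw [Finset.mem_filter] at hp
            linarith [hfac p hp.1]
        · exact inv_nonneg.2 (Pool.Agent.GBQ.rho_pos y).le
    _ = _ := mul_comm _ _

/-- second moment -/
theorem second_moment (X : Finset ℕ) (A : ℕ → Finset ℕ) (a b d : ℝ) (ha0 : 0 ≤ a)
    (ha : ∀ x ∈ X, a ≤ (A x).card) (hb : ∀ x ∈ X, ((A x).card : ℝ) ≤ b)
    (hd : ∀ x ∈ X, ∀ x' ∈ X, x < x' → ((A x ∩ A x').card : ℝ) ≤ d) (hd0 : 0 ≤ d) :
    ((X.card : ℝ) * a) ^ 2 ≤ (X.biUnion A).card * (X.card * b + X.card ^ 2 * d) := by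
  classical
  let S := X.biUnion A
  let f : ℕ → ℝ := fun n => ∑ x ∈ X, if n ∈ A x then (1 : ℝ) else 0
  have h1 : (X.card : ℝ) * a ≤ ∑ n ∈ S, f n := by
    change _ ≤ ∑ n ∈ S, ∑ x ∈ X, (if n ∈ A x then (1 : ℝ) else 0)
    rw [Finset.sum_comm]
    have : ∀ x ∈ X, a ≤ ∑ n ∈ S, (if n ∈ A x then (1 : ℝ) else 0) := by
      intro x hx
      rw [Finset.sum_ite_mem, Finset.sum_const, nsmul_eq_mul, mul_one]
      have e : S ∩ A x = A x := Finset.inter_eq_right.2 (Finset.subset_biUnion_of_mem A hx)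
      rw [e]
      exact ha x hx
    calc (X.card : ℝ) * a = ∑ _x ∈ X, a := by rw [Finset.sum_const, nsmul_eq_mul]
      _ ≤ _ := Finset.sum_le_sum this
  have h2 : (∑ n ∈ S, f n) ^ 2 ≤ S.card * ∑ n ∈ S, f n ^ 2 := sq_sum_le_card_mul_sum_sq
  have h3 : ∑ n ∈ S, f n ^ 2 ≤ X.card * b + X.card ^ 2 * d := by
    have e1 : ∀ n, f n ^ 2 = ∑ x ∈ X, ∑ x' ∈ X, if n ∈ A x ∩ A x' then (1 : ℝ) else 0 := by
      intro n
      change (∑ x ∈ X, if n ∈ A x then (1 : ℝ) else 0) ^ 2 = _
      rw [sq, Finset.sum_mul_sum]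
      refine Finset.sum_congr rfl fun x _ => Finset.sum_congr rfl fun x' _ => ?_
      by_cases h : n ∈ A x <;> by_cases h' : n ∈ A x' <;> simp [h, h']
    rw [Finset.sum_congr rfl fun n _ => e1 n, Finset.sum_comm]
    have e2 : ∀ x ∈ X, ∑ n ∈ S, ∑ x' ∈ X, (if n ∈ A x ∩ A x' then (1 : ℝ) else 0)
        ≤ b + X.card * d := by
      intro x hx
      rw [Finset.sum_comm]
      have e3 : ∀ x' ∈ X, ∑ n ∈ S, (if n ∈ A x ∩ A x' then (1 : ℝ) else 0)
          ≤ (if x' = x then b else 0) + d := by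
        intro x' hx'
        rw [Finset.sum_ite_mem, Finset.sum_const, nsmul_eq_mul, mul_one]
        have e4 : ((S ∩ (A x ∩ A x')).card : ℝ) ≤ ((A x ∩ A x').card : ℝ) := by
          exact_mod_cast Finset.card_le_card Finset.inter_subset_right
        refine e4.trans ?_
        rcases lt_trichotomy x x' with hlt | heq | hgt
        · rw [if_neg (by omega)]
          linarith [hd x hx x' hx' hlt]
        · subst heq
          rw [if_pos rfl, Finset.inter_self]
          linarith [hb x hx]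
        · rw [if_neg (by omega), Finset.inter_comm]
          linarith [hd x' hx' x hx hgt]
      refine (Finset.sum_le_sum e3).trans ?_
      rw [Finset.sum_add_distrib, Finset.sum_ite_eq' X x, if_pos hx, Finset.sum_const,
        nsmul_eq_mul]
    refine (Finset.sum_le_sum e2).trans ?_
    rw [Finset.sum_const, nsmul_eq_mul]
    apply le_of_eq
    ring
  have h4 : 0 ≤ (X.card : ℝ) * a := by positivity
  calc ((X.card : ℝ) * a) ^ 2 ≤ (∑ n ∈ S, f n) ^ 2 := pow_le_pow_left₀ h4 h1 2
    _ ≤ S.card * ∑ n ∈ S, f n ^ 2 := h2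
    _ ≤ S.card * (X.card * b + X.card ^ 2 * d) := mul_le_mul_of_nonneg_left h3 (Nat.cast_nonneg _)

end Pool.Agent.SunP
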