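import Pool.Agent.SunP.Values

/-!
The composite `n` with `n + π(k²)` prime.
-/

set_option autoImplicit false
open Finset Filter

namespace Pool.Agent.SunP

/-- many composite `n` with `n + π(k²)` prime -/
theorem square_shifts_composite : ∃ c : ℝ, 0 < c ∧ ∀ᶠ N : ℕ in atTop,
    c * N / Real.log (Real.log (Real.log N)) ≤
      ({n : ℕ | 1 < n ∧ n ≤ N ∧ ¬ n.Prime ∧ ∃ k : ℕ, 1 ≤ k ∧ k ≤ n ∧
        (k : ℝ) ≤ Real.log n ^ 2 ∧ (n + Nat.primeCounting (k ^ 2)).Prime}.ncard : ℝ) := by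
  obtain ⟨c, hc, h⟩ := square_shifts
  obtain ⟨C, hC, hup⟩ := Pool.Agent.PrimeCircle.primeCounting_le
  refine ⟨c / 2, by positivity, ?_⟩
  filter_upwards [h, ev_basic, ev_pow2 (2 * C / c), eventually_ge_atTop 2] with N h1 hN h2 hN2
  obtain ⟨hT, h20, hL, hLL⟩ := hN
  obtain ⟨T, hTdef⟩ : ∃ T : ℝ, T = Real.log (Real.log (Real.log N)) := ⟨_, rfl⟩
  rw [← hTdef] at hT h1 ⊢
  have hTL : T ≤ Real.log (Real.log N) := by
    rw [hTdef]
    exact Real.log_le_self (by linarith)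
  have hT0 : 0 < T := by linarith
  have hL0 : 0 < Real.log N := by linarith
  have hN0 : (0 : ℝ) ≤ N := Nat.cast_nonneg N
  have hprimes : (Nat.primeCounting N : ℝ) ≤ c / 2 * N / T := by
    have e1 : (Nat.primeCounting N : ℝ) ≤ Nat.primeCounting (4 * N) := by
      exact_mod_cast Nat.monotone_primeCounting (by omega)
    refine (e1.trans (hup N hN2)).trans ?_
    rw [div_le_div_iff₀ hL0 hT0]
    have e2 : 2 * C / c * T ≤ Real.log N :=
      (mul_le_mul_of_nonneg_left hTL (by positivity)).trans h2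
    have e3 : 2 * C * T ≤ c * Real.log N := by
      have : 2 * C / c * T * c ≤ Real.log N * c := mul_le_mul_of_nonneg_right e2 hc.le
      have e : 2 * C / c * T * c = 2 * C * T := by field_simp
      rw [e] at this
      linarith
    nlinarith
  have hsub : {n : ℕ | 1 ≤ n ∧ n ≤ N ∧ ∃ k : ℕ, 1 ≤ k ∧ k ≤ n ∧ (k : ℝ) ≤ Real.log n ^ 2 ∧
        (n + Nat.primeCounting (k ^ 2)).Prime} ⊆
      {n : ℕ | 1 < n ∧ n ≤ N ∧ ¬ n.Prime ∧ ∃ k : ℕ, 1 ≤ k ∧ k ≤ n ∧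
        (k : ℝ) ≤ Real.log n ^ 2 ∧ (n + Nat.primeCounting (k ^ 2)).Prime} ∪
      (((range (N + 1)).filter Nat.Prime : Finset ℕ) : Set ℕ) := by
    rintro n ⟨a1, a2, k, a3, a4, a5, a6⟩
    by_cases hp : n.Prime
    · right
      rw [mem_coe, mem_filter, mem_range]
      exact ⟨by omega, hp⟩
    · left
      refine ⟨?_, a2, hp, k, a3, a4, a5, a6⟩
      rcases Nat.lt_or_ge 1 n with h | h
      · exact h
      · exfalso
        have hn1 : n = 1 := by omega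
        rw [hn1, Nat.cast_one, Real.log_one] at a5
        have : (1 : ℝ) ≤ k := by exact_mod_cast a3
        norm_num at a5
        omega
  have hfin : {n : ℕ | 1 < n ∧ n ≤ N ∧ ¬ n.Prime ∧ ∃ k : ℕ, 1 ≤ k ∧ k ≤ n ∧
        (k : ℝ) ≤ Real.log n ^ 2 ∧ (n + Nat.primeCounting (k ^ 2)).Prime}.Finite :=
    (Set.finite_Icc 1 N).subset fun n hn => ⟨hn.1.le, hn.2.1⟩
  have hle := (Set.ncard_le_ncard hsub (hfin.union (Finset.finite_toSet _))).trans
    (Set.ncard_union_le _ _)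
  rw [Set.ncard_coe_finset, ← pc_eq] at hle
  have hle' : ({n : ℕ | 1 ≤ n ∧ n ≤ N ∧ ∃ k : ℕ, 1 ≤ k ∧ k ≤ n ∧ (k : ℝ) ≤ Real.log n ^ 2 ∧
        (n + Nat.primeCounting (k ^ 2)).Prime}.ncard : ℝ) ≤
      ({n : ℕ | 1 < n ∧ n ≤ N ∧ ¬ n.Prime ∧ ∃ k : ℕ, 1 ≤ k ∧ k ≤ n ∧
        (k : ℝ) ≤ Real.log n ^ 2 ∧ (n + Nat.primeCounting (k ^ 2)).Prime}.ncard : ℝ) +
      Nat.primeCounting N := by exact_mod_cast hle
  have e : c * N / T = c / 2 * N / T + c / 2 * N / T := by ring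
  linarith

end Pool.Agent.SunP
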