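import Pool.Agent.SunP.Shift

/-!
The values `π(k²)`, and the primes with square or triangular index.
-/

set_option autoImplicit false
open Finset Filter
open Pool.Agent.Helper20.TwinIndex (pr pi_pr pr_le_of_le_pi pr_strictMono cheb pr_prime)

namespace Pool.Agent.SunP

theorem pc_succ (a : ℕ) : Nat.primeCounting (a + 1) ≤ Nat.primeCounting a + 1 := by
  rw [Nat.primeCounting, Nat.primeCounting, Nat.primeCounting', Nat.count_succ]
  split_ifs <;> omega

theorem pc_add (a b : ℕ) : Nat.primeCounting (a + b) ≤ Nat.primeCounting a + b := by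
  induction b with
  | zero => simp
  | succ b ih =>
    have := pc_succ (a + b)
    rw [← add_assoc]
    omega

theorem pc_le (n : ℕ) : Nat.primeCounting n ≤ n := by
  have h := pc_add 0 n
  have h0 : Nat.primeCounting 0 = 0 := by decide
  rw [zero_add, h0, zero_add] at h
  exact h

theorem ev_pow2 (C : ℝ) : ∀ᶠ N : ℕ in atTop, C * Real.log (Real.log N) ≤ Real.log N := by
  have h9 := Real.isLittleO_log_id_atTop.def (c := 1 / (|C| + 1)) (by positivity)
  have h10 := tendsto_log.eventually h9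
  filter_upwards [h10, tendsto_log.eventually_ge_atTop 1, tendsto_loglog.eventually_ge_atTop 1]
    with N hN hL hLL
  simp only [Real.norm_eq_abs, id] at hN
  have h1 : (0 : ℝ) ≤ Real.log (Real.log N) := by linarith
  have h2 : (0 : ℝ) ≤ Real.log N := by linarith
  rw [abs_of_nonneg h1, abs_of_nonneg h2] at hN
  have hC : 0 < |C| + 1 := by positivity
  rw [div_mul_eq_mul_div, one_mul, le_div_iff₀ hC] at hN
  have := le_abs_self C
  nlinarith

/-- the number of distinct values of `π(k²)` -/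
theorem distinct (K' K : ℕ) (hK : K ≤ K') : Nat.primeCounting (K ^ 2) ≤
    2 * K' * ((Icc 1 K).image (fun k => Nat.primeCounting (k ^ 2))).card := by
  induction K with
  | zero => simp
  | succ K ih =>
    have ih' := ih (by omega)
    have hsub : (Icc 1 K).image (fun k => Nat.primeCounting (k ^ 2)) ⊆
        (Icc 1 (K + 1)).image (fun k => Nat.primeCounting (k ^ 2)) :=
      image_subset_image (Icc_subset_Icc_right (by omega))
    by_cases he : Nat.primeCounting ((K + 1) ^ 2) = Nat.primeCounting (K ^ 2)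
    · rw [he]
      exact ih'.trans (Nat.mul_le_mul_left _ (card_le_card hsub))
    · have hmono : ∀ k ≤ K, Nat.primeCounting (k ^ 2) ≤ Nat.primeCounting (K ^ 2) := fun k hk =>
        Nat.monotone_primeCounting (Nat.pow_le_pow_left hk 2)
      have hlt : Nat.primeCounting (K ^ 2) < Nat.primeCounting ((K + 1) ^ 2) :=
        lt_of_le_of_ne (Nat.monotone_primeCounting (Nat.pow_le_pow_left (by omega) 2)) (Ne.symm he)
      have hnot : Nat.primeCounting ((K + 1) ^ 2) ∉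
          (Icc 1 K).image (fun k => Nat.primeCounting (k ^ 2)) := by
        intro hmem
        obtain ⟨k, hk, hk2⟩ := mem_image.1 hmem
        have := hmono k (mem_Icc.1 hk).2
        omega
      have hins : insert (Nat.primeCounting ((K + 1) ^ 2))
          ((Icc 1 K).image (fun k => Nat.primeCounting (k ^ 2))) ⊆
          (Icc 1 (K + 1)).image (fun k => Nat.primeCounting (k ^ 2)) := by
        intro v hv
        rw [mem_insert] at hv
        rcases hv with rfl | hv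
        · exact mem_image.2 ⟨K + 1, mem_Icc.2 ⟨by omega, le_refl _⟩, rfl⟩
        · exact hsub hv
      have hcard := card_le_card hins
      rw [card_insert_of_notMem hnot] at hcard
      have hinc : Nat.primeCounting ((K + 1) ^ 2) ≤ Nat.primeCounting (K ^ 2) + (2 * K + 1) := by
        have := pc_add (K ^ 2) (2 * K + 1)
        rw [show K ^ 2 + (2 * K + 1) = (K + 1) ^ 2 by ring] at this
        exact this
      calc Nat.primeCounting ((K + 1) ^ 2) ≤ Nat.primeCounting (K ^ 2) + (2 * K + 1) := hinc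
        _ ≤ 2 * K' * ((Icc 1 K).image (fun k => Nat.primeCounting (k ^ 2))).card + 2 * K' := by
            omega
        _ = 2 * K' * (((Icc 1 K).image (fun k => Nat.primeCounting (k ^ 2))).card + 1) := by ring
        _ ≤ _ := Nat.mul_le_mul_left _ hcard

/-- many `n` with `n + π(k²)` prime -/
theorem square_shifts : ∃ c : ℝ, 0 < c ∧ ∀ᶠ N : ℕ in atTop,
    c * N / Real.log (Real.log (Real.log N)) ≤
      ({n : ℕ | 1 ≤ n ∧ n ≤ N ∧ ∃ k : ℕ, 1 ≤ k ∧ k ≤ n ∧ (k : ℝ) ≤ Real.log n ^ 2 ∧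
        (n + Nat.primeCounting (k ^ 2)).Prime}.ncard : ℝ) := by
  obtain ⟨c, hc, h⟩ := plus_lower
  refine ⟨c, hc, ?_⟩
  filter_upwards [h, ev_basic, ev_pow2 640, ev_pow 1 4, tendsto_log.eventually_ge_atTop 3]
    with N h1 hN h2 h4 h3
  obtain ⟨hT, h20, hL, hLL⟩ := hN
  obtain ⟨L, hLdef⟩ : ∃ L : ℝ, L = Real.log N := ⟨_, rfl⟩
  rw [← hLdef] at h2 h3 h4 hLL
  obtain ⟨K, hK⟩ : ∃ K : ℕ, K = ⌊L ^ 2 / 4⌋₊ := ⟨_, rfl⟩
  have hK1 : (K : ℝ) ≤ L ^ 2 / 4 := by rw [hK]; exact Nat.floor_le (by positivity)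
  have hK2 : L ^ 2 / 8 ≤ K := by
    have : L ^ 2 / 4 < (K : ℝ) + 1 := by rw [hK]; exact Nat.lt_floor_add_one _
    nlinarith
  have hL0 : 0 < L := by linarith
  have hKpos : (1 : ℝ) < K := by nlinarith
  have hK1' : 1 < K := by exact_mod_cast hKpos
  have hlogK0 : 0 < Real.log (K : ℝ) := Real.log_pos hKpos
  have hlogK : Real.log (K : ℝ) ≤ 2 * Real.log L := by
    have : Real.log (K : ℝ) ≤ Real.log (L ^ 2) := by
      apply Real.log_le_log (by linarith)
      nlinarith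
    rw [Real.log_pow] at this
    simpa using this
  obtain ⟨X, hX⟩ : ∃ X : Finset ℕ, X = (Icc 1 K).image (fun k => Nat.primeCounting (k ^ 2)) :=
    ⟨_, rfl⟩
  have hXc : L ≤ (X.card : ℝ) := by
    have hd := distinct K K (le_refl _)
    rw [← hX] at hd
    have hd' : (Nat.primeCounting (K ^ 2) : ℝ) ≤ 2 * K * X.card := by exact_mod_cast hd
    have hch := cheb (q := K ^ 2) (by nlinarith)
    push_cast at hch
    rw [Real.log_pow] at hch
    push_cast at hch
    have e1 : (K : ℝ) ^ 2 ≤ 10 * (2 * K * X.card) * (2 * Real.log K) := by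
      refine hch.trans ?_
      apply mul_le_mul_of_nonneg_right _ (by positivity)
      linarith
    have e2 : (K : ℝ) ≤ 40 * X.card * Real.log K := by
      have : (K : ℝ) * K ≤ (40 * X.card * Real.log K) * K := by nlinarith
      exact le_of_mul_le_mul_right this (by linarith)
    have e3 : (40 * X.card * Real.log K : ℝ) ≤ 40 * X.card * (2 * Real.log L) :=
      mul_le_mul_of_nonneg_left hlogK (by positivity)
    have e4 : L ^ 2 ≤ 640 * Real.log L * X.card := by nlinarith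
    have e5 : 640 * Real.log L * X.card ≤ L * X.card :=
      mul_le_mul_of_nonneg_right h2 (by positivity)
    have e6 : L * L ≤ X.card * L := by nlinarith
    exact le_of_mul_le_mul_right e6 hL0
  have hXb : ∀ x ∈ X, (x : ℝ) ≤ L ^ 4 := by
    intro x hx
    rw [hX, mem_image] at hx
    obtain ⟨k, hk, rfl⟩ := hx
    have hkK := (mem_Icc.1 hk).2
    have e1 : (Nat.primeCounting (k ^ 2) : ℝ) ≤ (k : ℝ) ^ 2 := by exact_mod_cast pc_le (k ^ 2)
    have e2 : (k : ℝ) ≤ K := by exact_mod_cast hkK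
    have e3 : (k : ℝ) ^ 2 ≤ (K : ℝ) ^ 2 := pow_le_pow_left₀ (by positivity) e2 2
    have e4 : (K : ℝ) ^ 2 ≤ (L ^ 2 / 4) ^ 2 := pow_le_pow_left₀ (by positivity) hK1 2
    have e5 : (0 : ℝ) ≤ L ^ 4 := by positivity
    have e6 : (L ^ 2 / 4) ^ 2 = L ^ 4 / 16 := by ring
    linarith
  have hmain := h1 X (by rw [← hLdef]; exact hXb) (by rw [← hLdef]; exact hXc)
  refine hmain.trans ?_
  have hsub : (((X.biUnion (AP N)).filter (fun n => N ≤ n ^ 2) : Finset ℕ) : Set ℕ) ⊆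
      {n : ℕ | 1 ≤ n ∧ n ≤ N ∧ ∃ k : ℕ, 1 ≤ k ∧ k ≤ n ∧ (k : ℝ) ≤ Real.log n ^ 2 ∧
        (n + Nat.primeCounting (k ^ 2)).Prime} := by
    intro n hn
    rw [mem_coe, mem_filter, mem_biUnion] at hn
    obtain ⟨⟨x, hx, hxn⟩, hn2⟩ := hn
    rw [AP, mem_filter] at hxn
    rw [hX, mem_image] at hx
    obtain ⟨k, hk, rfl⟩ := hx
    have hk' := mem_Icc.1 hk
    have hN1 : 1 ≤ N := by
      have := mem_Icc.1 hxn.1
      omega
    have hhalf := half_log hN1 hn2
    rw [← hLdef] at hhalf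
    have hkK : (k : ℝ) ≤ K := by exact_mod_cast hk'.2
    have hk1 : (k : ℝ) ≤ Real.log n ^ 2 := by nlinarith
    have hnI := mem_Icc.1 hxn.1
    refine ⟨hnI.1, hnI.2, k, hk'.1, ?_, hk1, hxn.2⟩
    have e1 : (k : ℝ) ^ 2 ≤ (n : ℝ) ^ 2 := by
      have e2 : (k : ℝ) ^ 2 ≤ (L ^ 2 / 4) ^ 2 := pow_le_pow_left₀ (by positivity) (by linarith) 2
      have e3 : (L ^ 2 / 4) ^ 2 = L ^ 4 / 16 := by ring
      have e4 : (N : ℝ) ≤ (n : ℝ) ^ 2 := by exact_mod_cast hn2
      have e5 : (0 : ℝ) ≤ L ^ 4 := by positivity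
      linarith
    have e2 : (k : ℝ) ≤ n := by
      exact (sq_le_sq₀ (by positivity) (by positivity)).1 e1
    exact_mod_cast e2
  have hfin : {n : ℕ | 1 ≤ n ∧ n ≤ N ∧ ∃ k : ℕ, 1 ≤ k ∧ k ≤ n ∧ (k : ℝ) ≤ Real.log n ^ 2 ∧
        (n + Nat.primeCounting (k ^ 2)).Prime}.Finite :=
    (Set.finite_Icc 1 N).subset fun n hn => ⟨hn.1, hn.2.1⟩
  have hle := Set.ncard_le_ncard hsub hfin
  rw [Set.ncard_coe_finset] at hle
  exact_mod_cast hle

/-- many `n` with `π(n - p)` of the form `f m` -/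
theorem index_shifts : ∃ c : ℝ, 0 < c ∧ ∀ᶠ N : ℕ in atTop, ∀ f : ℕ → ℕ,
    (∀ m, 1 ≤ m → 1 ≤ f m) → (∀ m, 1 ≤ m → f m ≤ m ^ 2) →
    (∀ m m', 1 ≤ m → m < m' → f m < f m') →
    c * N / Real.log (Real.log (Real.log N)) ≤
      ({n : ℕ | 1 ≤ n ∧ n ≤ N ∧ ∃ p m : ℕ, p.Prime ∧ p < n ∧ 1 ≤ m ∧
        Nat.primeCounting (n - p) = f m ∧ ((n - p : ℕ) : ℝ) ≤ Real.log n ^ 3}.ncard : ℝ) := by
  obtain ⟨c, hc, h⟩ := minus_lower
  refine ⟨c, hc, ?_⟩
  filter_upwards [h, ev_basic, ev_pow2 1920, tendsto_log.eventually_ge_atTop 3]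
    with N h1 hN h2 h3 f hf1 hf2 hf3
  obtain ⟨hT, h20, hL, hLL⟩ := hN
  obtain ⟨L, hLdef⟩ : ∃ L : ℝ, L = Real.log N := ⟨_, rfl⟩
  rw [← hLdef] at h2 h3 hLL
  have hL0 : 0 < L := by linarith
  obtain ⟨M, hM⟩ : ∃ M : ℕ, M = ⌈L⌉₊ := ⟨_, rfl⟩
  have hM1 : L ≤ M := by rw [hM]; exact Nat.le_ceil _
  have hM2 : (M : ℝ) ≤ 2 * L := by
    have : (M : ℝ) < L + 1 := by rw [hM]; exact Nat.ceil_lt_add_one hL0.le
    linarith
  obtain ⟨H, hH⟩ : ∃ H : ℕ, H = ⌊L ^ 3 / 8⌋₊ := ⟨_, rfl⟩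
  have hH1 : (H : ℝ) ≤ L ^ 3 / 8 := by rw [hH]; exact Nat.floor_le (by positivity)
  have hL3 : (27 : ℝ) ≤ L ^ 3 := by
    have := pow_le_pow_left₀ (by norm_num) h3 3
    linarith
  have hH2 : L ^ 3 / 16 ≤ H := by
    have : L ^ 3 / 8 < (H : ℝ) + 1 := by rw [hH]; exact Nat.lt_floor_add_one _
    linarith
  have hHr : (1 : ℝ) < H := by linarith
  have hH2' : 2 ≤ H := by
    have : 1 < H := by exact_mod_cast hHr
    omega
  have hlogH0 : 0 < Real.log (H : ℝ) := Real.log_pos hHr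
  have hlogH : Real.log (H : ℝ) ≤ 3 * Real.log L := by
    have : Real.log (H : ℝ) ≤ Real.log (L ^ 3) := by
      apply Real.log_le_log (by linarith)
      linarith
    rw [Real.log_pow] at this
    simpa using this
  have hpi : (4 * L ^ 2 : ℝ) ≤ Nat.primeCounting H := by
    have hch := cheb hH2'
    have e1 : (H : ℝ) ≤ 10 * Nat.primeCounting H * (3 * Real.log L) :=
      hch.trans (mul_le_mul_of_nonneg_left hlogH (by positivity))
    have e2 : L ^ 3 ≤ 480 * Real.log L * Nat.primeCounting H := by nlinarith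
    have e3 : 480 * Real.log L * Nat.primeCounting H ≤ L / 4 * Nat.primeCounting H :=
      mul_le_mul_of_nonneg_right (by linarith) (by positivity)
    have e4 : L * (4 * L ^ 2) ≤ L * Nat.primeCounting H := by nlinarith
    exact le_of_mul_le_mul_left e4 hL0
  obtain ⟨X, hX⟩ : ∃ X : Finset ℕ, X = (Icc 1 M).image (fun m => pr (f m)) := ⟨_, rfl⟩
  have hfM : ∀ m ∈ Icc 1 M, f m ≤ Nat.primeCounting H := by
    intro m hm
    have hm' := mem_Icc.1 hm
    have e1 : (f m : ℝ) ≤ (m : ℝ) ^ 2 := by exact_mod_cast hf2 m hm'.1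
    have e2 : (m : ℝ) ≤ M := by exact_mod_cast hm'.2
    have e3 : (m : ℝ) ^ 2 ≤ (2 * L) ^ 2 := pow_le_pow_left₀ (by positivity) (by linarith) 2
    have e4 : (f m : ℝ) ≤ Nat.primeCounting H := by nlinarith
    exact_mod_cast e4
  have hprH : ∀ m ∈ Icc 1 M, pr (f m) ≤ H := fun m hm =>
    pr_le_of_le_pi (hf1 m (mem_Icc.1 hm).1) (hfM m hm)
  have hXc : L ≤ (X.card : ℝ) := by
    have : X.card = M := by
      rw [hX, card_image_of_injOn]
      · simp
      · intro a ha b hb hab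
        rw [mem_coe, mem_Icc] at ha hb
        simp only at hab
        rcases lt_trichotomy a b with hlt | heq | hgt
        · have := pr_strictMono (hf1 a ha.1) (hf3 a b ha.1 hlt)
          omega
        · exact heq
        · have := pr_strictMono (hf1 b hb.1) (hf3 b a hb.1 hgt)
          omega
    rw [this]
    exact hM1
  have hXb : ∀ x ∈ X, (x : ℝ) ≤ L ^ 4 := by
    intro x hx
    rw [hX, mem_image] at hx
    obtain ⟨m, hm, rfl⟩ := hx
    have e1 : (pr (f m) : ℝ) ≤ H := by exact_mod_cast hprH m hm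
    have e2 : L ^ 3 ≤ L ^ 4 := pow_le_pow_right₀ (by linarith) (by norm_num)
    linarith
  have hmain := h1 X (by rw [← hLdef]; exact hXb) (by rw [← hLdef]; exact hXc)
  refine hmain.trans ?_
  have hsub : (((X.biUnion (AM N)).filter (fun n => N ≤ n ^ 2) : Finset ℕ) : Set ℕ) ⊆
      {n : ℕ | 1 ≤ n ∧ n ≤ N ∧ ∃ p m : ℕ, p.Prime ∧ p < n ∧ 1 ≤ m ∧
        Nat.primeCounting (n - p) = f m ∧ ((n - p : ℕ) : ℝ) ≤ Real.log n ^ 3} := by
    intro n hn
    rw [mem_coe, mem_filter, mem_biUnion] at hn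
    obtain ⟨⟨x, hx, hxn⟩, hn2⟩ := hn
    rw [AM, mem_filter] at hxn
    rw [hX, mem_image] at hx
    obtain ⟨m, hm, rfl⟩ := hx
    have hm' := mem_Icc.1 hm
    have hN1 : 1 ≤ N := by
      have := mem_Icc.1 hxn.1
      omega
    have hhalf := half_log hN1 hn2
    rw [← hLdef] at hhalf
    have hpos : 0 < pr (f m) := (pr_prime (f m)).pos
    have hsubn : n - (n - pr (f m)) = pr (f m) := by omega
    have hnI := mem_Icc.1 hxn.1
    refine ⟨hnI.1, hnI.2, n - pr (f m), m, hxn.2.2, by omega, hm'.1, ?_, ?_⟩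
    · rw [hsubn]
      exact pi_pr (hf1 m hm'.1)
    · rw [hsubn]
      have e1 : (pr (f m) : ℝ) ≤ H := by exact_mod_cast hprH m hm
      have e2 : L ^ 3 ≤ (2 * Real.log n) ^ 3 := pow_le_pow_left₀ hL0.le hhalf 3
      have e3 : (2 * Real.log n) ^ 3 = 8 * Real.log n ^ 3 := by ring
      linarith
  have hfin : {n : ℕ | 1 ≤ n ∧ n ≤ N ∧ ∃ p m : ℕ, p.Prime ∧ p < n ∧ 1 ≤ m ∧
        Nat.primeCounting (n - p) = f m ∧ ((n - p : ℕ) : ℝ) ≤ Real.log n ^ 3}.Finite :=
    (Set.finite_Icc 1 N).subset fun n hn => ⟨hn.1, hn.2.1⟩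
  have hle := Set.ncard_le_ncard hsub hfin
  rw [Set.ncard_coe_finset] at hle
  exact_mod_cast hle

end Pool.Agent.SunP
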